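import Pool.Agent.H92.RK.Targets

set_option autoImplicit false

/-!
# CLA: components with nonzero frequency
-/

open MeasureTheory Set
open scoped ENNReal
open Pool.Agent.H92.RK

namespace Pool.Agent.H86.RK.CLA

/-- the integral over the circle of a nonnegative continuous function -/
theorem circ (F : ℝ → ℝ) (hF : Continuous F) (h0 : ∀ θ, 0 ≤ F θ) :
    ∫⁻ θ in Ioo (-Real.pi) Real.pi, ENNReal.ofReal (F θ) =
      ENNReal.ofReal (∫ θ in (-Real.pi)..Real.pi, F θ) := by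
  rw [intervalIntegral.integral_of_le (by linarith [Real.pi_pos]),
    integral_Ioc_eq_integral_Ioo, ofReal_integral_eq_lintegral_ofReal]
  · exact (hF.integrableOn_Icc (a := -Real.pi) (b := Real.pi)).mono_set Ioo_subset_Icc_self
  · exact Filter.Eventually.of_forall h0

theorem cont_slice {W : ℝ → ℝ → ℂ} (h : Continuous (Function.uncurry W)) (r : ℝ) :
    Continuous (fun θ => W r θ) :=
  h.comp (Continuous.prodMk_right r)

theorem cont_slice' {W : ℝ → ℝ → ℂ} (h : Continuous (Function.uncurry W)) (θ : ℝ) :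
    Continuous (fun r => W r θ) :=
  h.comp (Continuous.prodMk_left θ)

/-- the integral over the circle for the norm -/
theorem circ_NN {W : ℝ → ℝ → ℂ} (h : Continuous (Function.uncurry W)) {r : ℝ} (hr : 0 < r) :
    ∫⁻ θ in Ioo (-Real.pi) Real.pi, ENNReal.ofReal (‖W r θ‖ ^ 2 * r) =
      ENNReal.ofReal ((∫ θ in (-Real.pi)..Real.pi, ‖W r θ‖ ^ 2) * r) := by
  rw [circ (fun θ => ‖W r θ‖ ^ 2 * r) (((cont_slice h r).norm.pow 2).mul continuous_const)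
    (fun θ => by positivity), intervalIntegral.integral_mul_const]

/-- the integral over the circle for the energy -/
theorem circ_EN {Wr Wt : ℝ → ℝ → ℂ} (h : Continuous (Function.uncurry Wr))
    (h' : Continuous (Function.uncurry Wt)) {r : ℝ} (hr : 0 < r) :
    ∫⁻ θ in Ioo (-Real.pi) Real.pi, ENNReal.ofReal ((‖Wr r θ‖ ^ 2 + ‖Wt r θ‖ ^ 2 / r ^ 2) * r) =
      ENNReal.ofReal (((∫ θ in (-Real.pi)..Real.pi, ‖Wr r θ‖ ^ 2) +
        (∫ θ in (-Real.pi)..Real.pi, ‖Wt r θ‖ ^ 2) / r ^ 2) * r) := by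
  have c1 : Continuous (fun θ => ‖Wr r θ‖ ^ 2) := (cont_slice h r).norm.pow 2
  have c2 : Continuous (fun θ => ‖Wt r θ‖ ^ 2 / r ^ 2) :=
    ((cont_slice h' r).norm.pow 2).div_const _
  rw [circ (fun θ => (‖Wr r θ‖ ^ 2 + ‖Wt r θ‖ ^ 2 / r ^ 2) * r) ((c1.add c2).mul continuous_const)
    (fun θ => by positivity), intervalIntegral.integral_mul_const,
    intervalIntegral.integral_add (c1.intervalIntegrable _ _) (c2.intervalIntegrable _ _),
    intervalIntegral.integral_div]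

theorem meas_NN0 {W : ℝ → ℝ → ℂ} (h : Continuous (Function.uncurry W)) :
    Measurable (fun p : ℝ × ℝ => ENNReal.ofReal (‖W p.1 p.2‖ ^ 2 * p.1)) :=
  ((h.norm.pow 2).mul continuous_fst).measurable.ennreal_ofReal

theorem meas_EN0 {Wr Wt : ℝ → ℝ → ℂ} (h : Continuous (Function.uncurry Wr))
    (h' : Continuous (Function.uncurry Wt)) :
    Measurable (fun p : ℝ × ℝ =>
      ENNReal.ofReal ((‖Wr p.1 p.2‖ ^ 2 + ‖Wt p.1 p.2‖ ^ 2 / p.1 ^ 2) * p.1)) := by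
  have m1 : Measurable (fun p : ℝ × ℝ => ‖Wr p.1 p.2‖ ^ 2) := (h.norm.pow 2).measurable
  have m2 : Measurable (fun p : ℝ × ℝ => ‖Wt p.1 p.2‖ ^ 2) := (h'.norm.pow 2).measurable
  exact ((m1.add (m2.div (measurable_fst.pow_const 2))).mul measurable_fst).ennreal_ofReal

theorem meas_Up {W : ℝ → ℝ → ℂ} (h : Continuous (Function.uncurry W)) (τ : ℝ) {ρ : ℝ → ℝ≥0∞}
    (hρ : Measurable ρ) :
    Measurable (fun p : ℝ × ℝ =>
      Up τ (ρ p.2) (p.1 ^ 2) * ENNReal.ofReal (‖W p.1 p.2‖ ^ 2 * p.1)) := by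
  refine Measurable.mul ?_ (meas_NN0 h)
  unfold Up
  have hr : Measurable (fun p : ℝ × ℝ => ρ p.2) := hρ.comp measurable_snd
  refine Measurable.ite ?_ ?_ ?_
  · exact measurableSet_le (measurable_fst.pow_const 2) measurable_const
  · exact measurable_const.div hr
  · exact ((measurable_const.mul (measurable_fst.pow_const 2)).ennreal_ofReal).div
      (hr.pow_const 2)

/-- a function with nonzero frequency vanishes at the origin -/
theorem W0 {k : ℕ} {s : ℤ} (hk : 6 ≤ k) (hs : ¬ (k : ℤ) ∣ s) {W : ℝ → ℝ → ℂ}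
    (hz : ∀ θ θ', W 0 θ = W 0 θ') (hQ : QP k s W) (θ : ℝ) : W 0 θ = 0 := by
  have h1 := hQ 0 θ
  rw [hz (θ + 2 * Real.pi / k) θ] at h1
  have hk0 : (k : ℂ) ≠ 0 := by
    have : k ≠ 0 := by omega
    exact_mod_cast this
  by_contra hne
  have h2 : Complex.exp (((2 * Real.pi * (s : ℝ) / (k : ℝ) : ℝ) : ℂ) * Complex.I) = 1 := by
    have h3 : 1 * W 0 θ =
        Complex.exp (((2 * Real.pi * (s : ℝ) / (k : ℝ) : ℝ) : ℂ) * Complex.I) * W 0 θ := by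
      rw [one_mul]
      exact h1
    exact (mul_right_cancel₀ hne h3).symm
  rw [Complex.exp_eq_one_iff] at h2
  obtain ⟨n, hn⟩ := h2
  apply hs
  refine ⟨n, ?_⟩
  have hpi : (Real.pi : ℂ) ≠ 0 := by exact_mod_cast Real.pi_ne_zero
  have hI : Complex.I ≠ 0 := Complex.I_ne_zero
  push_cast at hn
  have h4 : (2 * (Real.pi : ℂ) * Complex.I) * (s : ℂ) =
      (2 * (Real.pi : ℂ) * Complex.I) * ((k : ℂ) * (n : ℂ)) := by
    field_simp at hn
    linear_combination (2 * (Real.pi : ℂ) * Complex.I) * hn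
  have h5 : (2 * (Real.pi : ℂ) * Complex.I) ≠ 0 := by
    simp [hpi, hI]
  have h6 := mul_left_cancel₀ h5 h4
  exact_mod_cast h6

/-- the inequality on one circle -/
theorem circle {τ : ℝ} {c w₁ : ℝ → ℝ} {k : ℕ} {s : ℤ} {Ω : Set E2} {W Wr Wt : ℝ → ℝ → ℂ}
    (hNEA : T_NEA) (hFAR : T_FAR) (hB : Bes τ c w₁) (hk : 6 ≤ k) (hs : ¬ (k : ℤ) ∣ s)
    (hP : PF Ω W Wr Wt) (hQ : QP k s W) {ρ : ℝ → ℝ≥0∞} (hρ : Measurable ρ)
    (hρi : ∫⁻ θ in Ioo (-Real.pi) Real.pi, ρ θ ≤ ENNReal.ofReal (2 * Real.pi))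
    (hρ0 : ∀ θ, ρ θ = 0 → ∀ r, 0 < r → pt r θ ∉ Ω) {r : ℝ} (hr : 0 < r) :
    (∫ θ in (-Real.pi)..Real.pi, ‖W r θ‖ ^ 2 ≤ ∫ θ in (-Real.pi)..Real.pi, ‖Wt r θ‖ ^ 2) ∧
    ENNReal.ofReal (4 * τ * ∫ θ in (-Real.pi)..Real.pi, ‖W r θ‖ ^ 2) ≤
      ENNReal.ofReal (((∫ θ in (-Real.pi)..Real.pi, ‖Wt r θ‖ ^ 2) -
        ∫ θ in (-Real.pi)..Real.pi, ‖W r θ‖ ^ 2) / r ^ 2) +
      ∫⁻ θ in Ioo (-Real.pi) Real.pi, Up τ (ρ θ) (r ^ 2) * ENNReal.ofReal (‖W r θ‖ ^ 2) := by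
  have hC : C1 (W r) (Wt r) := ⟨fun θ => hP.dt r θ, cont_slice hP.ct r⟩
  have hQc : QPc k s (W r) := fun θ => hQ r θ
  have hz : ∀ θ, ρ θ = 0 → W r θ = 0 := by
    intro θ h
    have h1 : r ∉ tsupport (fun r => W r θ) := fun h2 => hρ0 θ h r hr (hP.supp θ h2)
    exact image_eq_zero_of_notMem_tsupport (f := fun r => W r θ) h1
  have hτ := hB.one_le
  rcases le_total (r ^ 2) (3 / 2) with h | h
  · have h1 := hNEA k s τ (r ^ 2) (W r) (Wt r) ρ hk hs (by linarith) hB.le (by positivity) h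
      hC hQc hρ hρi hz
    refine ⟨h1.1, ?_⟩
    have h2 : ∀ θ, Up τ (ρ θ) (r ^ 2) = ENNReal.ofReal (4 * τ) / ρ θ := by
      intro θ
      rw [Up, if_pos h]
    simp only [h2]
    exact h1.2
  · rcases eq_or_lt_of_le h with he | hlt
    · have h1 := hNEA k s τ (r ^ 2) (W r) (Wt r) ρ hk hs (by linarith) hB.le (by positivity) he.ge
        hC hQc hρ hρi hz
      refine ⟨h1.1, ?_⟩
      have h2 : ∀ θ, Up τ (ρ θ) (r ^ 2) = ENNReal.ofReal (4 * τ) / ρ θ := by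
        intro θ
        rw [Up, if_pos he.ge]
      simp only [h2]
      exact h1.2
    · have h1 := hFAR k s τ (r ^ 2) (W r) (Wt r) ρ hk hs hτ hB.le h hC hQc hρ hρi hz
      refine ⟨h1.1, ?_⟩
      have h2 : ∀ θ, Up τ (ρ θ) (r ^ 2) = ENNReal.ofReal (4 * τ * r ^ 2) / ρ θ ^ 2 := by
        intro θ
        rw [Up, if_neg (not_le.mpr hlt)]
      simp only [h2]
      exact h1.2

theorem _root_.Pool.Agent.H86.RK.pf_CLA (hRA2 : T_RA2) (hNEA : T_NEA) (hFAR : T_FAR)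
    (hRHO : T_RHO) : T_CLA := by
  intro τ c w₁ k s Ω W Wr Wt hB hk hs hΩ hvol hP hQ
  obtain ⟨hρ, hρi, hρ0, hρo⟩ := hRHO Ω hΩ
  have hρi' : ∫⁻ θ in Ioo (-Real.pi) Real.pi, rv {r | pt r θ ∈ Ω} ≤
      ENNReal.ofReal (2 * Real.pi) := by
    rw [hρi, hvol, ENNReal.ofReal_mul (by norm_num : (0 : ℝ) ≤ 2)]
    simp
  have hcirc := fun (r : ℝ) (hr : 0 < r) =>
    circle hNEA hFAR hB hk hs hP hQ hρ hρi' hρ0 hr
  have hτ : 0 ≤ 4 * τ := by linarith [hB.one_le]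
  -- the energy splits
  have hE : EN Wr Wt =
      (∫⁻ r in Ioi (0 : ℝ), ∫⁻ θ in Ioo (-Real.pi) Real.pi,
        ENNReal.ofReal ((‖Wr r θ‖ ^ 2 + ‖W r θ‖ ^ 2 / r ^ 2) * r)) +
      ∫⁻ r in Ioi (0 : ℝ), ENNReal.ofReal (((∫ θ in (-Real.pi)..Real.pi, ‖Wt r θ‖ ^ 2) -
        ∫ θ in (-Real.pi)..Real.pi, ‖W r θ‖ ^ 2) / r ^ 2 * r) := by
    rw [EN, ← lintegral_add_left ((meas_EN0 hP.cr hP.c0).lintegral_prod_right')]
    refine setLIntegral_congr_fun measurableSet_Ioi (fun r hr => ?_)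
    have hr' : (0 : ℝ) < r := hr
    have a1 : 0 ≤ ∫ θ in (-Real.pi)..Real.pi, ‖Wr r θ‖ ^ 2 :=
      intervalIntegral.integral_nonneg (by linarith [Real.pi_pos]) (fun θ _ => by positivity)
    have a2 : 0 ≤ ∫ θ in (-Real.pi)..Real.pi, ‖W r θ‖ ^ 2 :=
      intervalIntegral.integral_nonneg (by linarith [Real.pi_pos]) (fun θ _ => by positivity)
    have a3 := (hcirc r hr').1
    rw [circ_EN hP.cr hP.ct hr', circ_EN hP.cr hP.c0 hr', ← ENNReal.ofReal_add]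
    · congr 1
      ring
    · positivity
    · exact mul_nonneg (div_nonneg (by linarith) (by positivity)) hr'.le
  -- the rays
  have hU : ∫⁻ r in Ioi (0 : ℝ), ∫⁻ θ in Ioo (-Real.pi) Real.pi,
        Up τ (rv {r | pt r θ ∈ Ω}) (r ^ 2) * ENNReal.ofReal (‖W r θ‖ ^ 2 * r) ≤
      ∫⁻ r in Ioi (0 : ℝ), ∫⁻ θ in Ioo (-Real.pi) Real.pi,
        ENNReal.ofReal ((‖Wr r θ‖ ^ 2 + ‖W r θ‖ ^ 2 / r ^ 2) * r) := by
    rw [lintegral_lintegral_swap (f := fun r θ => Up τ (rv {r | pt r θ ∈ Ω}) (r ^ 2) *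
        ENNReal.ofReal (‖W r θ‖ ^ 2 * r)) (meas_Up hP.c0 τ hρ).aemeasurable,
      lintegral_lintegral_swap (f := fun r θ =>
        ENNReal.ofReal ((‖Wr r θ‖ ^ 2 + ‖W r θ‖ ^ 2 / r ^ 2) * r))
        (meas_EN0 hP.cr hP.c0).aemeasurable]
    refine lintegral_mono (fun θ => ?_)
    obtain ⟨R, hR0, hR⟩ := hP.bd
    exact hRA2 τ c w₁ hB {r | pt r θ ∈ Ω} (fun r => W r θ) (fun r => Wr r θ) (hρo θ)
      ⟨fun r => hP.dr r θ, cont_slice' hP.cr θ⟩ (W0 hk hs hP.zero hQ θ)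
      ⟨R, fun r hr => hR r θ hr⟩ (hP.supp θ)
  -- the circles
  have hN : ENNReal.ofReal (4 * τ) * NN W ≤
      (∫⁻ r in Ioi (0 : ℝ), ∫⁻ θ in Ioo (-Real.pi) Real.pi,
        Up τ (rv {r | pt r θ ∈ Ω}) (r ^ 2) * ENNReal.ofReal (‖W r θ‖ ^ 2 * r)) +
      ∫⁻ r in Ioi (0 : ℝ), ENNReal.ofReal (((∫ θ in (-Real.pi)..Real.pi, ‖Wt r θ‖ ^ 2) -
        ∫ θ in (-Real.pi)..Real.pi, ‖W r θ‖ ^ 2) / r ^ 2 * r) := by
    rw [NN, ← lintegral_const_mul' _ _ ENNReal.ofReal_ne_top,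
      ← lintegral_add_left ((meas_Up hP.c0 τ hρ).lintegral_prod_right')]
    refine setLIntegral_mono' measurableSet_Ioi (fun r hr => ?_)
    have hr' : (0 : ℝ) < r := hr
    have a3 := (hcirc r hr').1
    have a4 := (hcirc r hr').2
    have a5 := mul_le_mul_left a4 (ENNReal.ofReal r)
    rw [circ_NN hP.c0 hr', ← ENNReal.ofReal_mul hτ, ← mul_assoc, ENNReal.ofReal_mul' hr'.le,
      add_comm, ENNReal.ofReal_mul' hr'.le]
    refine a5.trans (le_of_eq ?_)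
    rw [add_mul, ← lintegral_mul_const' _ _ ENNReal.ofReal_ne_top]
    congr 1
    refine lintegral_congr (fun θ => ?_)
    rw [mul_assoc, ← ENNReal.ofReal_mul' hr'.le]
  rw [hE]
  exact hN.trans (add_le_add_left hU _)

end Pool.Agent.H86.RK.CLA
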