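import Pool.Agent.H92.RK.Targets

set_option autoImplicit false

/-!
# DFB: the norm and the energy of a function in polar coordinates add up
-/

open MeasureTheory Set
open scoped ENNReal
open Pool.Agent.H92.RK

namespace Pool.Agent.H86.RK

/-- the integral over the circle of a nonnegative continuous function -/
theorem circ (F : ℝ → ℝ) (hF : Continuous F) (h0 : ∀ θ, 0 ≤ F θ) :
    ∫⁻ θ in Ioo (-Real.pi) Real.pi, ENNReal.ofReal (F θ) =
      ENNReal.ofReal (∫ θ in (-Real.pi)..Real.pi, F θ) := by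
  rw [intervalIntegral.integral_of_le (by linarith [Real.pi_pos]),
    integral_Ioc_eq_integral_Ioo, ofReal_integral_eq_lintegral_ofReal]
  · exact (hF.integrableOn_Icc (a := -Real.pi) (b := Real.pi)).mono_set Ioo_subset_Icc_self
  · exact Filter.Eventually.of_forall h0

theorem cont_slice {W : ℝ → ℝ → ℂ} (h : Continuous (Function.uncurry W)) (r : ℝ) :
    Continuous (fun θ => W r θ) :=
  h.comp (Continuous.prodMk_right r)

/-- the integral over the circle for the norm -/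
theorem circ_NN {W : ℝ → ℝ → ℂ} (h : Continuous (Function.uncurry W)) {r : ℝ} (hr : 0 < r) :
    ∫⁻ θ in Ioo (-Real.pi) Real.pi, ENNReal.ofReal (‖W r θ‖ ^ 2 * r) =
      ENNReal.ofReal ((∫ θ in (-Real.pi)..Real.pi, ‖W r θ‖ ^ 2) * r) := by
  rw [circ (fun θ => ‖W r θ‖ ^ 2 * r) (((cont_slice h r).norm.pow 2).mul continuous_const)
    (fun θ => by positivity), intervalIntegral.integral_mul_const]

/-- the integral over the circle for the energy -/
theorem circ_EN {Wr Wt : ℝ → ℝ → ℂ} (h : Continuous (Function.uncurry Wr))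
    (h' : Continuous (Function.uncurry Wt)) {r : ℝ} (hr : 0 < r) :
    ∫⁻ θ in Ioo (-Real.pi) Real.pi, ENNReal.ofReal ((‖Wr r θ‖ ^ 2 + ‖Wt r θ‖ ^ 2 / r ^ 2) * r) =
      ENNReal.ofReal (((∫ θ in (-Real.pi)..Real.pi, ‖Wr r θ‖ ^ 2) +
        (∫ θ in (-Real.pi)..Real.pi, ‖Wt r θ‖ ^ 2) / r ^ 2) * r) := by
  have c1 : Continuous (fun θ => ‖Wr r θ‖ ^ 2) := (cont_slice h r).norm.pow 2
  have c2 : Continuous (fun θ => ‖Wt r θ‖ ^ 2 / r ^ 2) :=
    ((cont_slice h' r).norm.pow 2).div_const _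
  rw [circ (fun θ => (‖Wr r θ‖ ^ 2 + ‖Wt r θ‖ ^ 2 / r ^ 2) * r) ((c1.add c2).mul continuous_const)
    (fun θ => by positivity), intervalIntegral.integral_mul_const,
    intervalIntegral.integral_add (c1.intervalIntegrable _ _) (c2.intervalIntegrable _ _),
    intervalIntegral.integral_div]

theorem meas_NN {W : ℝ → ℝ → ℂ} (h : Continuous (Function.uncurry W)) :
    Measurable (fun r => ∫⁻ θ in Ioo (-Real.pi) Real.pi, ENNReal.ofReal (‖W r θ‖ ^ 2 * r)) := by
  have hm : Measurable (fun p : ℝ × ℝ => ENNReal.ofReal (‖W p.1 p.2‖ ^ 2 * p.1)) :=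
    ((h.norm.pow 2).mul continuous_fst).measurable.ennreal_ofReal
  exact hm.lintegral_prod_right'

theorem meas_EN {Wr Wt : ℝ → ℝ → ℂ} (h : Continuous (Function.uncurry Wr))
    (h' : Continuous (Function.uncurry Wt)) :
    Measurable (fun r => ∫⁻ θ in Ioo (-Real.pi) Real.pi,
      ENNReal.ofReal ((‖Wr r θ‖ ^ 2 + ‖Wt r θ‖ ^ 2 / r ^ 2) * r)) := by
  have m1 : Measurable (fun p : ℝ × ℝ => ‖Wr p.1 p.2‖ ^ 2) := (h.norm.pow 2).measurable
  have m2 : Measurable (fun p : ℝ × ℝ => ‖Wt p.1 p.2‖ ^ 2) := (h'.norm.pow 2).measurable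
  have hm : Measurable (fun p : ℝ × ℝ =>
      ENNReal.ofReal ((‖Wr p.1 p.2‖ ^ 2 + ‖Wt p.1 p.2‖ ^ 2 / p.1 ^ 2) * p.1)) :=
    ((m1.add (m2.div (measurable_fst.pow_const 2))).mul measurable_fst).ennreal_ofReal
  exact hm.lintegral_prod_right'

theorem pf_DFB (hDFA : T_DFA) : T_DFB := by
  intro k Ω U Ur Ut hk hΩ hinv hU
  obtain ⟨W, Wr, Wt, hW, h0, hN, hR, hT⟩ := hDFA k Ω U Ur Ut hk hΩ hinv hU
  refine ⟨W, Wr, Wt, hW, h0, ?_, ?_⟩
  · unfold NN
    rw [← lintegral_finsetSum _ (fun s _ => meas_NN (hW s).1.c0)]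
    refine setLIntegral_congr_fun measurableSet_Ioi (fun r hr => ?_)
    have hr' : (0 : ℝ) < r := hr
    rw [circ_NN hU.c0 hr', Finset.sum_congr rfl (fun s _ => circ_NN (hW s).1.c0 hr'),
      ← ENNReal.ofReal_sum_of_nonneg, ← Finset.sum_mul, hN r]
    intro s _
    exact mul_nonneg (intervalIntegral.integral_nonneg (by linarith [Real.pi_pos])
      (fun θ _ => by positivity)) hr'.le
  · unfold EN
    rw [← lintegral_finsetSum _ (fun s _ => meas_EN (hW s).1.cr (hW s).1.ct)]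
    refine setLIntegral_congr_fun measurableSet_Ioi (fun r hr => ?_)
    have hr' : (0 : ℝ) < r := hr
    rw [circ_EN hU.cr hU.ct hr',
      Finset.sum_congr rfl (fun s _ => circ_EN (hW s).1.cr (hW s).1.ct hr'),
      ← ENNReal.ofReal_sum_of_nonneg, ← Finset.sum_mul, Finset.sum_add_distrib,
      ← Finset.sum_div, hR r, hT r]
    intro s _
    have a1 : 0 ≤ ∫ θ in (-Real.pi)..Real.pi, ‖Wr s r θ‖ ^ 2 :=
      intervalIntegral.integral_nonneg (by linarith [Real.pi_pos]) (fun θ _ => by positivity)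
    have a2 : 0 ≤ ∫ θ in (-Real.pi)..Real.pi, ‖Wt s r θ‖ ^ 2 :=
      intervalIntegral.integral_nonneg (by linarith [Real.pi_pos]) (fun θ _ => by positivity)
    positivity

end Pool.Agent.H86.RK
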